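import Pool.Agent.H47.ST.Targets

/-!
# The row LOW: weights are at least 1, lower bound of the potential
-/

namespace Pool.Agent.H16.STK

open Finset Pool.Agent.H47.ST

theorem one_le_wt (R : ℕ) (W U : ℝ) (e hl r hr : ℕ) (hR : 1 ≤ R) (hW : 1 ≤ W) (hU : 1 ≤ U)
    (h1 : hl ≤ R + 1) (h2 : r ≤ R) : 1 ≤ wt R W U e hl r hr := by
  have hL : Lh e hl r hr ≤ R + 1 := by
    unfold Lh
    refine (min_le_left _ _).trans ?_
    unfold cl
    split_ifs <;> omega
  have hexp : 1 ≤ Real.exp (((R : ℝ) + 1 - (Lh e hl r hr : ℝ)) / R) := by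
    refine Real.one_le_exp (div_nonneg ?_ (Nat.cast_nonneg R))
    have h3 : ((Lh e hl r hr : ℕ) : ℝ) ≤ (R : ℝ) + 1 := by exact_mod_cast hL
    linarith
  unfold wt
  have h3 : (1 : ℝ) ≤ if walker hl r hr then W else 1 := by split_ifs <;> linarith
  have h4 : (1 : ℝ) ≤ if pend e hl r hr then U else 1 := by split_ifs <;> linarith
  exact one_le_mul_of_one_le_of_one_le (one_le_mul_of_one_le_of_one_le hexp h3) h4

theorem one_le_phC (R : ℕ) (W U : ℝ) (e : ℕ) (hR : 1 ≤ R) (hW : 1 ≤ W) (hU : 1 ≤ U) :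
    ∀ (B : List ℕ) (hl hr : ℕ), hl ≤ R + 1 → (∀ r ∈ B, r ≤ R) → 1 ≤ phC R W U e hl B hr
  | [], _, _, _, _ => by simp [phC]
  | r :: B, hl, hr, h1, h2 => by
    have hr' : r ≤ R := h2 r List.mem_cons_self
    simp only [phC]
    refine one_le_mul_of_one_le_of_one_le (one_le_wt R W U e hl r _ hR hW hU h1 hr')
      (one_le_phC R W U e hR hW hU B _ hr ?_ fun x hx => h2 x (List.mem_cons_of_mem _ hx))
    exact max_le h1 (by omega)

theorem one_le_PA (R : ℕ) (W U : ℝ) (e : ℕ) (hR : 1 ≤ R) (hW : 1 ≤ W) (hU : 1 ≤ U) :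
    ∀ st : List (List ℕ), okR R st → 1 ≤ PA R W U e st
  | [], _ => by simp [PA]
  | B :: st, h => by
    have ih := one_le_PA R W U e hR hW hU st fun C hC => h C (List.mem_cons_of_mem _ hC)
    unfold PA at ih ⊢
    rw [List.map_cons, List.prod_cons]
    exact one_le_mul_of_one_le_of_one_le
      (one_le_phC R W U e hR hW hU B 0 0 (by omega) (h B List.mem_cons_self)) ih

theorem top_le (R : ℕ) : ∀ (B : List ℕ) (h : ℕ), h ≤ R + 1 → (∀ r ∈ B, r ≤ R) →
    top h B ≤ R + 1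
  | [], _, h1, _ => h1
  | r :: B, h, h1, h2 => by
    have hr' : r ≤ R := h2 r List.mem_cons_self
    simp only [top]
    exact top_le R B _ (max_le h1 (by omega)) fun x hx => h2 x (List.mem_cons_of_mem _ hx)

theorem tsum_le (R : ℕ) : ∀ st : List (List ℕ), okR R st → Pool.Agent.H47.ST.tsum st ≤ (R + 1) * st.length
  | [], _ => by simp [Pool.Agent.H47.ST.tsum]
  | B :: st, h => by
    have ih := tsum_le R st fun C hC => h C (List.mem_cons_of_mem _ hC)
    have h1 := top_le R B 0 (by omega) (h B List.mem_cons_self)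
    unfold Pool.Agent.H47.ST.tsum at ih ⊢
    rw [List.map_cons, List.sum_cons, List.length_cons, Nat.mul_add, Nat.mul_one]
    omega

theorem pf_LOW : T_LOW := by
  intro R m W U D st hR hW hU hD hm hst
  have h1 := one_le_PA R W U 1 hR hW hU st hst
  have h2 := tsum_le R st hst
  rw [hm] at h2
  have h3 : D ^ Pool.Agent.H47.ST.tsum st ≤ D ^ ((R + 1) * m) := pow_le_pow_right₀ hD h2
  have h4 : 0 < D ^ Pool.Agent.H47.ST.tsum st := pow_pos (by linarith) _
  unfold PHI
  rw [div_mul_eq_mul_div, le_div_iff₀ h4, one_mul]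
  have h5 : 0 ≤ D ^ ((R + 1) * m) := (pow_pos (by linarith) _).le
  nlinarith

end Pool.Agent.H16.STK
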